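import Pool.Agent.Y215.PO.Stm

/-! Project PO: closure properties of definable predicates. -/

set_option autoImplicit false

namespace Pool.Agent.Y47.PO.LOG

open FirstOrder FirstOrder.Language
open Pool.Agent.Y215.PO

theorem atomic (M : Type) [PartialOrder M] [Language.order.Structure M]
    [Language.order.OrderedStructure M] (t1 t2 : (Set.univ : Set M) ⊕ ℕ) :
    DP M (fun v => Sum.elim (fun c : (Set.univ : Set M) => (c : M)) v t1 ≤
      Sum.elim (fun c : (Set.univ : Set M) => (c : M)) v t2) := by
  unfold DP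
  rw [Set.definable_iff_exists_formula_sum]
  refine ⟨(Term.var (Sum.inl t1)).le (Term.var (Sum.inl t2)), ?_⟩
  ext v
  simp [Formula.Realize, Term.realize_le]

theorem ex {M : Type} [Language.order.Structure M] (R : (ℕ → M) → Prop) (i : ℕ) (h : DP M R) :
    DP M (fun v => ∃ m : M, R (Function.update v i m)) := by
  classical
  have h1 : (Set.univ : Set M).Definable Language.order
      ((fun g : ℕ ⊕ Fin 1 → M => g ∘ fun j : ℕ => if j = i then Sum.inr 0 else Sum.inl j) ⁻¹'
        {v : ℕ → M | R v}) := Set.Definable.preimage_comp _ h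
  have h2 := h1.exists_of_finite
  unfold DP
  refine Eq.mp (congrArg _ ?_) h2
  ext v
  have e : ∀ u : Fin 1 → M, (Sum.elim v u ∘ fun j : ℕ => if j = i then Sum.inr 0 else Sum.inl j) =
      Function.update v i (u 0) := by
    intro u
    funext j
    by_cases hj : j = i
    · subst hj
      simp
    · simp [hj]
  constructor
  · rintro ⟨u, hu⟩
    refine ⟨u 0, ?_⟩
    rw [← e u]
    exact hu
  · rintro ⟨m, hm⟩
    refine ⟨fun _ => m, ?_⟩
    change R (Sum.elim v (fun _ => m) ∘ _)
    rw [e]
    exact hm

theorem t : S_LOG := by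
  intro M _ _ _
  refine ⟨fun i j => atomic M (Sum.inr i) (Sum.inr j),
    fun i c => atomic M (Sum.inr i) (Sum.inl ⟨c, Set.mem_univ c⟩),
    fun i c => atomic M (Sum.inl ⟨c, Set.mem_univ c⟩) (Sum.inr i), ?_, ?_, ?_, ?_, ?_⟩
  · intro R R' h h'
    exact Set.Definable.inter h h'
  · intro R h
    exact Set.Definable.compl h
  · intro R i h
    exact ex R i h
  · intro R s h
    exact Set.Definable.preimage_comp s h
  · intro f h
    exact Set.Definable.preimage_comp (fun n : ℕ => if n = 0 then (0 : Fin 2) else 1) h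

end Pool.Agent.Y47.PO.LOG
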